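import Pool.Agent.N303.SJ.Stm

set_option autoImplicit false

/-! SJ/TAY: high degrees are small near the origin (helper755). -/

open MeasureTheory Metric Set
open scoped ENNReal RealInnerProductSpace NNReal

namespace Pool.Agent.N755.SJ

open Pool.Agent.N303.SH
open Pool.Agent.N303.SJ

/-- the remainder of the exponential series -/
noncomputable def Rm (L : ℕ) (z : ℂ) : ℂ :=
  Complex.exp z - ∑ j ∈ Finset.range L, z ^ j / (j.factorial : ℂ)

lemma Rm_zero (L : ℕ) : Rm (L + 1) 0 = 0 := by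
  unfold Rm
  rw [Finset.sum_range_succ', Finset.sum_eq_zero]
  · simp
  · intro j _
    rw [zero_pow (Nat.succ_ne_zero j), zero_div]

lemma Rm_deriv (L : ℕ) (z : ℂ) (t : ℝ) :
    HasDerivAt (fun t : ℝ => Rm (L + 1) (t * z)) (z * Rm L (t * z)) t := by
  have h0 : HasDerivAt (fun t : ℝ => (t : ℂ) * z) z t := by
    have := (Complex.ofRealCLM.hasDerivAt (x := t)).mul_const z
    simpa using this
  have h1 : HasDerivAt (fun t : ℝ => Complex.exp ((t : ℂ) * z)) (Complex.exp (t * z) * z) t :=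
    h0.cexp
  have h2 : HasDerivAt (fun t : ℝ => ∑ j ∈ Finset.range (L + 1),
      ((t : ℂ) * z) ^ j / (j.factorial : ℂ)) (z * ∑ j ∈ Finset.range L,
        ((t : ℂ) * z) ^ j / (j.factorial : ℂ)) t := by
    have e1 : (fun t : ℝ => ∑ j ∈ Finset.range (L + 1), ((t : ℂ) * z) ^ j / (j.factorial : ℂ)) =
        fun t : ℝ => (∑ j ∈ Finset.range L, ((t : ℂ) * z) ^ (j + 1) / ((j + 1).factorial : ℂ)) + 1 := by
      funext t
      rw [Finset.sum_range_succ']
      simp
    rw [e1, Finset.mul_sum]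
    apply HasDerivAt.add_const
    apply HasDerivAt.fun_sum
    intro j _
    have h3 := (h0.pow (j + 1)).div_const ((j + 1).factorial : ℂ)
    refine h3.congr_deriv ?_
    rw [Nat.factorial_succ]
    push_cast
    have h4 : (j.factorial : ℂ) ≠ 0 := by exact_mod_cast j.factorial_ne_zero
    have h5 : (j : ℂ) + 1 ≠ 0 := by exact_mod_cast Nat.succ_ne_zero j
    field_simp
  have h3 := h1.sub h2
  unfold Rm
  refine h3.congr_deriv ?_
  ring

lemma Rm_le (L : ℕ) : ∀ z : ℂ, z.re = 0 → ‖Rm L z‖ ≤ ‖z‖ ^ L / L.factorial := by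
  induction L with
  | zero =>
    intro z hz
    unfold Rm
    rw [Finset.sum_range_zero, sub_zero, Complex.norm_exp, hz, Real.exp_zero]
    simp
  | succ L ih =>
    intro z hz
    have hB : ∀ t : ℝ, HasDerivAt (fun t : ℝ => ‖z‖ ^ (L + 1) / (L + 1).factorial * t ^ (L + 1))
        (‖z‖ ^ (L + 1) / L.factorial * t ^ L) t := by
      intro t
      have h1 := (hasDerivAt_pow (L + 1) t).const_mul (‖z‖ ^ (L + 1) / ((L + 1).factorial : ℝ))
      refine h1.congr_deriv ?_
      rw [Nat.factorial_succ, Nat.add_sub_cancel]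
      push_cast
      field_simp
    have key := image_norm_le_of_norm_deriv_right_le_deriv_boundary'
      (f := fun t : ℝ => Rm (L + 1) (t * z)) (f' := fun t : ℝ => z * Rm L (t * z)) (a := 0) (b := 1)
      (B := fun t : ℝ => ‖z‖ ^ (L + 1) / (L + 1).factorial * t ^ (L + 1))
      (B' := fun t : ℝ => ‖z‖ ^ (L + 1) / L.factorial * t ^ L)
      (fun t _ => (Rm_deriv L z t).continuousAt.continuousWithinAt)
      (fun t _ => (Rm_deriv L z t).hasDerivWithinAt)
      (by
        rw [Complex.ofReal_zero, zero_mul, Rm_zero, norm_zero]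
        simp)
      (fun t _ => (hB t).continuousAt.continuousWithinAt)
      (fun t _ => (hB t).hasDerivWithinAt)
      (by
        intro t ht
        have h1 := ih (t * z) (by rw [Complex.re_ofReal_mul, hz, mul_zero])
        rw [norm_mul] at h1 ⊢
        rw [Complex.norm_real, Real.norm_eq_abs, abs_of_nonneg ht.1] at h1
        calc ‖z‖ * ‖Rm L (t * z)‖ ≤ ‖z‖ * ((t * ‖z‖) ^ L / L.factorial) :=
              mul_le_mul_of_nonneg_left h1 (norm_nonneg _)
          _ = ‖z‖ ^ (L + 1) / L.factorial * t ^ L := by rw [mul_pow]; ring)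
      (right_mem_Icc.2 zero_le_one)
    simpa using key

/-- Cauchy-Schwarz -/
lemma cs1 {n : ℕ} {g : S n → ℂ} (hg : MemLp g 2 (sg n)) :
    (∫ y, ‖g y‖ ∂(sg n)) ^ 2 ≤ (sg n).real univ * N2 g := by
  have i1 : Integrable (fun y => ‖g y‖) (sg n) := (hg.integrable (by norm_num)).norm
  have i2 : Integrable (fun y => ‖g y‖ ^ 2) (sg n) := hg.norm.integrable_sq
  have h := discrim_le_zero (a := (sg n).real univ) (b := -2 * ∫ y, ‖g y‖ ∂(sg n))
    (c := N2 g) ?_
  · unfold discrim at h
    nlinarith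
  · intro t
    have h1 : 0 ≤ ∫ y, (‖g y‖ - t) ^ 2 ∂(sg n) := integral_nonneg fun y => sq_nonneg _
    have h2 : ∫ y, (‖g y‖ - t) ^ 2 ∂(sg n) =
        ∫ y, (‖g y‖ ^ 2 + ((-2 * t) * ‖g y‖ + t ^ 2)) ∂(sg n) := by
      congr 1; ext y; ring
    have e1 := integral_add i2 ((i1.const_mul (-2 * t)).add (integrable_const (t ^ 2)))
    have e2 := integral_add (i1.const_mul (-2 * t)) (integrable_const (t ^ 2))
    simp only [Pi.add_apply] at e1
    rw [h2, e1, e2, integral_const_mul, integral_const, smul_eq_mul] at h1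
    unfold N2
    linarith

theorem t_tay : Pool.Agent.N303.SJ.S_TAY := by
  intro c L g hg hD x
  have hgi : Integrable g (sg (c + 2)) := hg.integrable (by norm_num)
  -- the Taylor polynomial
  have hT : ∀ j < L, ∫ y, (-(2 * Real.pi * ⟪(y : E (c + 2)), x⟫ : ℝ) * Complex.I) ^ j /
      (j.factorial : ℂ) * g y ∂(sg (c + 2)) = 0 := by
    intro j hj
    have hF : lin ((2 * Real.pi) • x) ^ j ∈ Pool.Agent.N303.SH.P (c + 2) (1 * j) :=
      pow_P (lin_P _) j
    rw [one_mul] at hF
    have h1 := int_exp hgi j hF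
    have h2 : ∫ y, ((lin ((2 * Real.pi) • x) ^ j : C(S (c + 2), ℝ)) y : ℂ) * g y ∂(sg (c + 2)) =
        0 := by
      rw [h1]
      refine Finset.sum_eq_zero fun k hk => Finset.sum_eq_zero fun i _ => ?_
      rw [hD k (by
        have := Finset.mem_range.1 hk
        show ¬ L ≤ k
        omega) i, mul_zero]
    have h3 : ∀ y : S (c + 2), (-(2 * Real.pi * ⟪(y : E (c + 2)), x⟫ : ℝ) * Complex.I) ^ j /
        (j.factorial : ℂ) * g y = ((-Complex.I) ^ j / (j.factorial : ℂ)) *
          (((lin ((2 * Real.pi) • x) ^ j : C(S (c + 2), ℝ)) y : ℂ) * g y) := by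
      intro y
      rw [ContinuousMap.pow_apply, lin_apply, real_inner_smul_left, real_inner_comm]
      push_cast
      have h4 : (-(2 * (Real.pi : ℂ) * (⟪x, (y : E (c + 2))⟫ : ℝ)) * Complex.I) =
          (-Complex.I) * (2 * (Real.pi : ℂ) * (⟪x, (y : E (c + 2))⟫ : ℝ)) := by ring
      rw [h4, mul_pow]
      ring
    simp only [h3]
    rw [integral_const_mul, h2, mul_zero]
  have hTi : ∀ j, Integrable (fun y : S (c + 2) =>
      (-(2 * Real.pi * ⟪(y : E (c + 2)), x⟫ : ℝ) * Complex.I) ^ j /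
        (j.factorial : ℂ) * g y) (sg (c + 2)) := by
    intro j
    refine Integrable.bdd_mul (c := (2 * Real.pi * ‖x‖) ^ j / j.factorial) hgi ?_ ?_
    · exact Continuous.aestronglyMeasurable (by fun_prop)
    · refine Filter.Eventually.of_forall fun y => ?_
      rw [norm_div, norm_pow, norm_mul, Complex.norm_I, mul_one, norm_neg, Complex.norm_real,
        Complex.norm_natCast]
      gcongr
      rw [norm_mul, Real.norm_eq_abs, abs_of_nonneg (by positivity : (0 : ℝ) ≤ 2 * Real.pi)]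
      gcongr
      have := norm_inner_le_norm (𝕜 := ℝ) (y : E (c + 2)) x
      rwa [S_norm, one_mul] at this
  have hei : Integrable (fun y : S (c + 2) =>
      Complex.exp (-(2 * Real.pi * ⟪(y : E (c + 2)), x⟫ : ℝ) * Complex.I) * g y) (sg (c + 2)) := by
    refine Integrable.bdd_mul (c := 1) hgi ?_ ?_
    · exact Continuous.aestronglyMeasurable (by fun_prop)
    · refine Filter.Eventually.of_forall fun y => ?_
      rw [Complex.norm_exp]
      simp
  have hft : ft g x = ∫ y, Rm L (-(2 * Real.pi * ⟪(y : E (c + 2)), x⟫ : ℝ) * Complex.I) * g y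
      ∂(sg (c + 2)) := by
    unfold ft Rm
    simp only [sub_mul, Finset.sum_mul]
    rw [integral_sub hei (integrable_finsetSum _ fun j _ => hTi j),
      integral_finsetSum _ fun j _ => hTi j, Finset.sum_eq_zero, sub_zero]
    intro j hj
    exact hT j (Finset.mem_range.1 hj)
  have hb : ‖ft g x‖ ≤ (2 * Real.pi * ‖x‖) ^ L / L.factorial * ∫ y, ‖g y‖ ∂(sg (c + 2)) := by
    rw [hft, ← integral_const_mul]
    refine norm_integral_le_of_norm_le (hgi.norm.const_mul _) ?_
    refine Filter.Eventually.of_forall fun y => ?_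
    rw [norm_mul]
    apply mul_le_mul_of_nonneg_right _ (norm_nonneg _)
    refine (Rm_le L _ (by simp)).trans ?_
    rw [norm_mul, Complex.norm_I, mul_one, norm_neg, Complex.norm_real]
    gcongr
    rw [norm_mul, Real.norm_eq_abs, abs_of_nonneg (by positivity : (0 : ℝ) ≤ 2 * Real.pi)]
    gcongr
    have := norm_inner_le_norm (𝕜 := ℝ) (y : E (c + 2)) x
    rwa [S_norm, one_mul] at this
  calc ‖ft g x‖ ^ 2 ≤ ((2 * Real.pi * ‖x‖) ^ L / L.factorial * ∫ y, ‖g y‖ ∂(sg (c + 2))) ^ 2 :=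
        pow_le_pow_left₀ (norm_nonneg _) hb 2
    _ = ((2 * Real.pi * ‖x‖) ^ L / L.factorial) ^ 2 * (∫ y, ‖g y‖ ∂(sg (c + 2))) ^ 2 := by
        rw [mul_pow]
    _ ≤ ((2 * Real.pi * ‖x‖) ^ L / L.factorial) ^ 2 * ((sg (c + 2)).real univ * N2 g) :=
        mul_le_mul_of_nonneg_left (cs1 hg) (by positivity)
    _ = _ := by ring

end Pool.Agent.N755.SJ
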